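import Mathlib

/-! Banach ultraproducts, good ultrafilters, injectivity of Banach spaces. -/

set_option autoImplicit false

namespace Pool.Agent.X331.UI

open Filter Topology Cardinal
open scoped ENNReal

universe u v

section Ultraproduct

variable (𝕜 : Type v) [RCLike 𝕜] {I : Type u} (U : Ultrafilter I) (X : I → Type u)
  [∀ i, NormedAddCommGroup (X i)] [∀ i, NormedSpace 𝕜 (X i)]

/-- The bounded families `(x_i)` with `lim_U ‖x_i‖ = 0`. -/
def nullFamilies : Submodule 𝕜 (lp X ∞) where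
  carrier := {x | Tendsto (fun i => ‖x i‖) U (𝓝 0)}
  zero_mem' := by
    simp only [Set.mem_ofPred_eq, lp.coeFn_zero, Pi.zero_apply, norm_zero]
    exact tendsto_const_nhds
  add_mem' := by
    intro x y hx hy
    simp only [Set.mem_ofPred_eq] at hx hy ⊢
    have h := hx.add hy
    rw [add_zero] at h
    refine squeeze_zero (fun i => norm_nonneg _) (fun i => ?_) h
    rw [lp.coeFn_add, Pi.add_apply]
    exact norm_add_le _ _
  smul_mem' := by
    intro c x hx
    simp only [Set.mem_ofPred_eq] at hx ⊢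
    have h := hx.const_mul ‖c‖
    rw [mul_zero] at h
    refine h.congr fun i => ?_
    rw [lp.coeFn_smul, Pi.smul_apply, norm_smul]

instance isClosed_nullFamilies : IsClosed (nullFamilies 𝕜 U X : Set (lp X ∞)) := by
  refine isClosed_of_closure_subset fun x hx => ?_
  show Tendsto (fun i => ‖x i‖) U (𝓝 0)
  rw [Metric.tendsto_nhds]
  intro ε hε
  obtain ⟨y, hy, hxy⟩ := Metric.mem_closure_iff.1 hx (ε / 2) (half_pos hε)
  have hy' : Tendsto (fun i => ‖y i‖) U (𝓝 0) := hy
  have h1 := (Metric.tendsto_nhds.1 hy') (ε / 2) (half_pos hε)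
  filter_upwards [h1] with i hi
  rw [Real.dist_eq, sub_zero, abs_of_nonneg (norm_nonneg _)] at hi ⊢
  have h2 : ‖x i - y i‖ ≤ ‖x - y‖ := by
    have := lp.norm_apply_le_norm (p := ∞) ENNReal.top_ne_zero (x - y) i
    rwa [lp.coeFn_sub, Pi.sub_apply] at this
  rw [dist_eq_norm] at hxy
  calc ‖x i‖ = ‖(x i - y i) + y i‖ := by rw [sub_add_cancel]
    _ ≤ ‖x i - y i‖ + ‖y i‖ := norm_add_le _ _
    _ < ε / 2 + ε / 2 := by linarith
    _ = ε := by ring

/-- The Banach ultraproduct `[X_i]_U = ℓ_∞(I; X_i) / {(x_i) : lim_U ‖x_i‖ = 0}`. -/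
abbrev Ultraprod : Type u := lp X ∞ ⧸ nullFamilies 𝕜 U X

end Ultraproduct

/-- `U` is countably incomplete. -/
def CountablyIncomplete {I : Type u} (U : Ultrafilter I) : Prop :=
  ∃ S : ℕ → Set I, (∀ n, S n ∈ U) ∧ Antitone S ∧ ⋂ n, S n = ∅

open Classical in
/-- `U` is `κ`-good: for every set `S` with fewer than `κ` elements and every monotone map `f` from
the finite subsets of `S` to `U` (larger sets go to smaller sets) there is `g ≤ f` with values in
`U` that turns unions into intersections. -/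
def Good (κ : Cardinal.{u}) {I : Type u} (U : Ultrafilter I) : Prop :=
  ∀ S : Type u, #S < κ → ∀ f : Finset S → Set I, (∀ A, f A ∈ U) → (∀ A B, A ⊆ B → f B ⊆ f A) →
    ∃ g : Finset S → Set I, (∀ A, g A ∈ U) ∧ (∀ A B, g (A ∪ B) = g A ∩ g B) ∧ ∀ A, g A ⊆ f A

/-- The density character. -/
noncomputable def dens (X : Type u) [TopologicalSpace X] : Cardinal.{u} :=
  sInf {c | ∃ D : Set X, Dense D ∧ #D = c}

section Injective

variable (𝕜 : Type v) [RCLike 𝕜] (E : Type u) [NormedAddCommGroup E] [NormedSpace 𝕜 E]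

/-- `E` is universally `(lam, κ)`-injective: for all Banach spaces `X` and closed subspaces `Y` of
`X` of density character less than `κ`, each operator `t : Y → E` has an extension `T : X → E`
with `‖T‖ ≤ lam ‖t‖`. -/
def UnivInjective (lam : ℝ) (κ : Cardinal.{u}) : Prop :=
  ∀ (X : Type u) [NormedAddCommGroup X] [NormedSpace 𝕜 X] [CompleteSpace X] (Y : Submodule 𝕜 X),
    IsClosed (Y : Set X) → dens Y < κ → ∀ t : Y →L[𝕜] E, ∃ T : X →L[𝕜] E,
      (∀ y : Y, T y = t y) ∧ ‖T‖ ≤ lam * ‖t‖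

/-- `E` is `κ`-injective: for all Banach spaces `X` of density character less than `κ` and all
closed subspaces `Y` of `X`, each operator `t : Y → E` has an extension `T : X → E`. -/
def AlephInjective (κ : Cardinal.{u}) : Prop :=
  ∀ (X : Type u) [NormedAddCommGroup X] [NormedSpace 𝕜 X] [CompleteSpace X] (Y : Submodule 𝕜 X),
    IsClosed (Y : Set X) → dens X < κ → ∀ t : Y →L[𝕜] E, ∃ T : X →L[𝕜] E, ∀ y : Y, T y = t y

variable {E} in
/-- The Banach-Mazur distance between the subspace `G` and `ℓ_∞^n`: the infimum of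
`‖w‖ ‖w⁻¹‖` over the isomorphisms `w`. -/
noncomputable def bmDist (G : Submodule 𝕜 E) (n : ℕ) : ℝ≥0∞ :=
  ⨅ w : G ≃L[𝕜] (Fin n → 𝕜), ‖(w : G →L[𝕜] (Fin n → 𝕜))‖ₑ * ‖(w.symm : (Fin n → 𝕜) →L[𝕜] G)‖ₑ

/-- Every finite-dimensional subspace of `E` lies in a finite-dimensional subspace `G` whose
Banach-Mazur distance to `ℓ_∞^{dim G}` is at most `lam`. -/
def LInfty (lam : ℝ≥0∞) : Prop :=
  ∀ F : Submodule 𝕜 E, FiniteDimensional 𝕜 F → ∃ G : Submodule 𝕜 E, F ≤ G ∧
    FiniteDimensional 𝕜 G ∧ bmDist 𝕜 G (Module.finrank 𝕜 G) ≤ lam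

/-- `E` is an `ℒ_∞`-space. -/
def IsLInfty : Prop := ∃ lam : ℝ, 1 ≤ lam ∧ LInfty 𝕜 E (ENNReal.ofReal lam)

/-- `E` is a Lindenstrauss space. -/
def IsLindenstrauss : Prop := ∀ lam : ℝ, 1 < lam → LInfty 𝕜 E (ENNReal.ofReal lam)

end Injective

end Pool.Agent.X331.UI
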