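import Pool.Agent.X331.UI.Thm

/-! Density characters of subspaces. -/

set_option autoImplicit false

namespace Pool.Agent.X331.UI

open Filter Topology Cardinal

universe u v

theorem dens_sub {𝕜 : Type v} [RCLike 𝕜] {Z : Type u} [NormedAddCommGroup Z] [NormedSpace 𝕜 Z]
    (Y : Submodule 𝕜 Z) {κ : Cardinal.{u}} (h : dens Z < κ) : dens Y < κ := by
  classical
  obtain ⟨D, hD, hDc⟩ := exists_dense h
  rcases D.finite_or_infinite with hfin | hinf
  · have hDu : D = Set.univ := by
      rw [← hD.closure_eq, hfin.isClosed.closure_eq]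
    have hle : dens Y ≤ #(Set.univ : Set Y) := dens_le dense_univ
    refine lt_of_le_of_lt (hle.trans ?_) hDc
    rw [hDu, mk_univ, mk_univ]
    exact mk_subtype_le _
  · haveI : Infinite D := hinf.to_subtype
    let p : D × ℕ → Y := fun q =>
      if h : ∃ y : Y, dist ((y : Y) : Z) (q.1 : Z) < 1 / ((q.2 : ℝ) + 1) then h.choose else 0
    have hp : ∀ (d : D) (n : ℕ) (y : Y), dist (y : Z) (d : Z) < 1 / ((n : ℝ) + 1) →
        dist ((p (d, n) : Y) : Z) (d : Z) < 1 / ((n : ℝ) + 1) := by
      intro d n y hy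
      have hex : ∃ y : Y, dist ((y : Y) : Z) (d : Z) < 1 / ((n : ℝ) + 1) := ⟨y, hy⟩
      have h1 : p (d, n) = hex.choose := dif_pos hex
      rw [h1]
      exact hex.choose_spec
    have hdense : Dense (Set.range p) := by
      intro y
      rw [Metric.mem_closure_iff]
      intro ε hε
      obtain ⟨n, hn⟩ := exists_nat_one_div_lt (half_pos hε)
      have hpos : (0 : ℝ) < 1 / ((n : ℝ) + 1) := by positivity
      obtain ⟨d, hd, hdy⟩ := Metric.mem_closure_iff.1 (hD (y : Z)) _ hpos
      refine ⟨p (⟨d, hd⟩, n), ⟨_, rfl⟩, ?_⟩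
      have h2 := hp ⟨d, hd⟩ n y hdy
      calc dist y (p (⟨d, hd⟩, n)) = dist (y : Z) (p (⟨d, hd⟩, n) : Z) := rfl
        _ ≤ dist (y : Z) d + dist d (p (⟨d, hd⟩, n) : Z) := dist_triangle _ _ _
        _ < ε / 2 + ε / 2 := by
            rw [dist_comm d]
            exact add_lt_add (hdy.trans hn) (h2.trans hn)
        _ = ε := by ring
    refine lt_of_le_of_lt (dens_le hdense) (lt_of_le_of_lt ?_ hDc)
    refine mk_range_le.trans ?_
    rw [mk_prod, lift_uzero, mk_nat, lift_aleph0]
    exact (mul_aleph0_eq (aleph0_le_mk D)).le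

end Pool.Agent.X331.UI
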