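import Pool.Agent.X331.UI.Defs

/-! Extension of operators into Banach ultraproducts. -/

set_option autoImplicit false

namespace Pool.Agent.X331.UI

open Filter Topology Cardinal
open scoped ENNReal

universe u v

variable {𝕜 : Type v} [RCLike 𝕜] {I : Type u} {U : Ultrafilter I} {X : I → Type u}
  [∀ i, NormedAddCommGroup (X i)] [∀ i, NormedSpace 𝕜 (X i)]

/-- The quotient map. -/
noncomputable def qm (𝕜 : Type v) [RCLike 𝕜] (U : Ultrafilter I) (X : I → Type u)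
    [∀ i, NormedAddCommGroup (X i)] [∀ i, NormedSpace 𝕜 (X i)] :
    lp X ∞ →L[𝕜] Ultraprod 𝕜 U X :=
  (nullFamilies 𝕜 U X).mkQL

theorem qm_surj : Function.Surjective (qm 𝕜 U X) := Submodule.mkQ_surjective _

theorem qm_eq_iff {x y : lp X ∞} : qm 𝕜 U X x = qm 𝕜 U X y ↔
    Tendsto (fun i => ‖x i - y i‖) U (𝓝 0) := by
  have h : qm 𝕜 U X x = qm 𝕜 U X y ↔ x - y ∈ nullFamilies 𝕜 U X := Submodule.Quotient.eq _
  rw [h]
  rfl

theorem qm_congr {x y : lp X ∞} (h : ∀ᶠ i in (U : Filter I), x i = y i) :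
    qm 𝕜 U X x = qm 𝕜 U X y := by
  rw [qm_eq_iff]
  refine Tendsto.congr' ?_ tendsto_const_nhds
  filter_upwards [h] with i hi
  rw [hi, sub_self, norm_zero]

/-- The norm of the ultraproduct is the limit of the norms. -/
theorem tendsto_norm (x : lp X ∞) :
    Tendsto (fun i => ‖x i‖) U (𝓝 ‖qm 𝕜 U X x‖) := by
  -- the limit exists
  have hb : ∀ i, ‖x i‖ ∈ Set.Icc (0 : ℝ) ‖x‖ := fun i =>
    ⟨norm_nonneg _, lp.norm_apply_le_norm ENNReal.top_ne_zero x i⟩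
  obtain ⟨L, hL, hlim⟩ := (isCompact_Icc (a := (0 : ℝ)) (b := ‖x‖)).ultrafilter_le_nhds
    (U.map fun i => ‖x i‖) (by
      rw [le_principal_iff]
      show (fun i => ‖x i‖) ⁻¹' Set.Icc 0 ‖x‖ ∈ U
      exact Filter.univ_mem' hb)
  have hlim' : Tendsto (fun i => ‖x i‖) U (𝓝 L) := hlim
  suffices h : ‖qm 𝕜 U X x‖ = L by rw [h]; exact hlim'
  apply le_antisymm
  · refine le_of_forall_pos_le_add fun ε hε => ?_
    classical
    have hev : ∀ᶠ i in (U : Filter I), ‖x i‖ < L + ε :=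
      hlim'.eventually (gt_mem_nhds (by linarith))
    let y0 : ∀ i, X i := fun i => if ‖x i‖ < L + ε then x i else 0
    have hy0 : ∀ i, ‖y0 i‖ ≤ L + ε := by
      intro i
      by_cases hi : ‖x i‖ < L + ε
      · simp only [y0, if_pos hi]; exact hi.le
      · simp only [y0, if_neg hi, norm_zero]; linarith [hL.1]
    let y : lp X ∞ := ⟨y0, memℓp_infty ⟨L + ε, by rintro _ ⟨i, rfl⟩; exact hy0 i⟩⟩
    have hxy : qm 𝕜 U X x = qm 𝕜 U X y := by
      refine qm_congr ?_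
      filter_upwards [hev] with i hi
      show x i = y0 i
      simp only [y0, if_pos hi]
    rw [hxy]
    calc ‖qm 𝕜 U X y‖ ≤ ‖y‖ := Submodule.Quotient.norm_mk_le _ _
      _ ≤ L + ε := lp.norm_le_of_forall_le (by linarith [hL.1]) hy0
  · refine le_of_forall_pos_le_add fun ε hε => ?_
    obtain ⟨y, hy, hyn⟩ := Submodule.Quotient.norm_mk_lt (S := nullFamilies 𝕜 U X)
      (qm 𝕜 U X x) hε
    have hxy : qm 𝕜 U X y = qm 𝕜 U X x := hy
    rw [qm_eq_iff] at hxy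
    have h1 : Tendsto (fun i => ‖x i‖ - ‖y i - x i‖) U (𝓝 (L - 0)) := hlim'.sub hxy
    rw [sub_zero] at h1
    refine le_of_tendsto h1 (Eventually.of_forall fun i => ?_)
    have h2 : ‖x i‖ ≤ ‖y i‖ + ‖y i - x i‖ := by
      calc ‖x i‖ = ‖y i - (y i - x i)‖ := by rw [sub_sub_cancel]
        _ ≤ _ := norm_sub_le _ _
    have h3 : ‖y i‖ ≤ ‖y‖ := lp.norm_apply_le_norm ENNReal.top_ne_zero y i
    linarith

/-- A linear lifting of the quotient map. -/
theorem exists_lift : ∃ σ : Ultraprod 𝕜 U X →ₗ[𝕜] lp X ∞, ∀ e, qm 𝕜 U X (σ e) = e := by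
  obtain ⟨σ, hσ⟩ := (qm 𝕜 U X).toLinearMap.exists_rightInverse_of_surjective
    (LinearMap.range_eq_top.2 qm_surj)
  exact ⟨σ, fun e => by
    have := LinearMap.congr_fun hσ e
    exact this⟩

/-- Norm bounds for maps from `ℓ_∞^m` pass to almost all coordinates. -/
theorem eventually_bound {m : ℕ} (g : Fin m → lp X ∞) {c0 c : ℝ} (hc : c0 < c)
    (h : ∀ a : Fin m → 𝕜, ‖qm 𝕜 U X (∑ j, a j • g j)‖ ≤ c0 * ‖a‖) :
    ∀ᶠ i in (U : Filter I), ∀ a : Fin m → 𝕜, ‖∑ j, a j • g j i‖ ≤ c * ‖a‖ := by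
  by_contra hn
  rw [← Ultrafilter.eventually_not] at hn
  push Not at hn
  have h1 : ∀ i, ∃ a : Fin m → 𝕜, (¬ (∀ b : Fin m → 𝕜, ‖∑ j, b j • g j i‖ ≤ c * ‖b‖)) →
      ‖a‖ = 1 ∧ c < ‖∑ j, a j • g j i‖ := by
    intro i
    by_cases hi : ∀ b : Fin m → 𝕜, ‖∑ j, b j • g j i‖ ≤ c * ‖b‖
    · exact ⟨0, fun h => absurd hi h⟩
    · push Not at hi
      obtain ⟨b, hb⟩ := hi
      have hb0 : b ≠ 0 := by
        rintro rfl
        simp at hb
      have hbn : 0 < ‖b‖ := norm_pos_iff.2 hb0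
      refine ⟨((‖b‖⁻¹ : ℝ) : 𝕜) • b, fun _ => ⟨?_, ?_⟩⟩
      · rw [norm_smul, RCLike.norm_ofReal, abs_of_pos (inv_pos.2 hbn), inv_mul_cancel₀ hbn.ne']
      · have h2 : ∑ j, (((‖b‖⁻¹ : ℝ) : 𝕜) • b) j • g j i = ((‖b‖⁻¹ : ℝ) : 𝕜) • ∑ j, b j • g j i := by
          rw [Finset.smul_sum]
          refine Finset.sum_congr rfl fun j _ => ?_
          rw [Pi.smul_apply, smul_assoc]
        rw [h2, norm_smul, RCLike.norm_ofReal, abs_of_pos (inv_pos.2 hbn), inv_mul_eq_div,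
          lt_div_iff₀ hbn]
        exact hb
  choose a ha using h1
  have hev : ∀ᶠ i in (U : Filter I), ‖a i‖ = 1 ∧ c < ‖∑ j, a i j • g j i‖ := by
    filter_upwards [hn] with i hi
    refine ha i fun hall => ?_
    obtain ⟨b, hb⟩ := hi
    exact absurd (hall b) (not_le.2 hb)
  obtain ⟨b, hbs, hb⟩ := (isCompact_sphere (0 : Fin m → 𝕜) 1).ultrafilter_le_nhds (U.map a)
    (by
      rw [le_principal_iff]
      show a ⁻¹' Metric.sphere (0 : Fin m → 𝕜) 1 ∈ (U : Filter I)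
      filter_upwards [hev] with i hi
      exact mem_sphere_zero_iff_norm.2 hi.1)
  have hb' : Tendsto a U (𝓝 b) := hb
  have hbn : ‖b‖ = 1 := mem_sphere_zero_iff_norm.1 hbs
  -- the limiting family
  have hx := tendsto_norm (𝕜 := 𝕜) (U := U) (∑ j, b j • g j)
  have hx2 : ‖qm 𝕜 U X (∑ j, b j • g j)‖ ≤ c0 := by
    have := h b
    rwa [hbn, mul_one] at this
  have hd : Tendsto (fun i => ∑ j, ‖a i j - b j‖ * ‖g j‖) U (𝓝 (∑ j : Fin m, 0 * ‖g j‖)) := by
    refine tendsto_finsetSum _ fun j _ => Tendsto.mul_const _ ?_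
    have h3 : Tendsto (fun i => a i j - b j) U (𝓝 (b j - b j)) :=
      ((continuous_apply j).tendsto b |>.comp hb').sub_const _
    rw [sub_self] at h3
    have h4 := h3.norm
    rwa [norm_zero] at h4
  simp only [zero_mul, Finset.sum_const_zero] at hd
  have hsum := hx.add hd
  rw [add_zero] at hsum
  have hle : c ≤ ‖qm 𝕜 U X (∑ j, b j • g j)‖ := by
    refine ge_of_tendsto hsum ?_
    filter_upwards [hev] with i hi
    refine hi.2.le.trans ?_
    have h5 : ∑ j, a i j • g j i = (∑ j, b j • g j : lp X ∞) i + ∑ j, (a i j - b j) • g j i := by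
      rw [lp.coeFn_sum, Finset.sum_apply, ← Finset.sum_add_distrib]
      refine Finset.sum_congr rfl fun j _ => ?_
      rw [lp.coeFn_smul, Pi.smul_apply, ← add_smul]
      congr 1
      ring
    rw [h5]
    refine (norm_add_le _ _).trans ?_
    gcongr
    refine (norm_sum_le _ _).trans ?_
    refine Finset.sum_le_sum fun j _ => ?_
    rw [norm_smul]
    gcongr
    exact lp.norm_apply_le_norm ENNReal.top_ne_zero _ _
  linarith

/-- The `ℒ_{∞,lam+}` property. -/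
def LInftyPlus (𝕜 : Type v) [RCLike 𝕜] (E : Type u) [NormedAddCommGroup E] [NormedSpace 𝕜 E]
    (lam : ℝ) : Prop :=
  ∀ F : Submodule 𝕜 E, FiniteDimensional 𝕜 F → ∀ lam' > lam, ∃ G : Submodule 𝕜 E, F ≤ G ∧
    ∃ (n : ℕ) (w : G ≃L[𝕜] (Fin n → 𝕜)), ‖(w : G →L[𝕜] (Fin n → 𝕜))‖ *
      ‖(w.symm : (Fin n → 𝕜) →L[𝕜] G)‖ < lam'

theorem LInfty.plus {E : Type u} [NormedAddCommGroup E] [NormedSpace 𝕜 E] {lam : ℝ}
    (h : LInfty 𝕜 E (ENNReal.ofReal lam)) (h0 : 0 ≤ lam) : LInftyPlus 𝕜 E lam := by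
  intro F hF lam' hlam'
  obtain ⟨G, hFG, _, hG⟩ := h F hF
  refine ⟨G, hFG, Module.finrank 𝕜 G, ?_⟩
  have h1 : bmDist 𝕜 G (Module.finrank 𝕜 G) < ENNReal.ofReal lam' :=
    lt_of_le_of_lt hG ((ENNReal.ofReal_lt_ofReal_iff (by linarith)).2 hlam')
  unfold bmDist at h1
  rw [iInf_lt_iff] at h1
  obtain ⟨w, hw⟩ := h1
  refine ⟨w, ?_⟩
  rw [← ofReal_norm, ← ofReal_norm, ← ENNReal.ofReal_mul (norm_nonneg _)] at hw
  exact (ENNReal.ofReal_lt_ofReal_iff (by linarith)).1 hw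

theorem LInftyPlus.of_forall {E : Type u} [NormedAddCommGroup E] [NormedSpace 𝕜 E] {lam : ℝ}
    (h0 : 0 ≤ lam) (h : ∀ mu > lam, LInfty 𝕜 E (ENNReal.ofReal mu)) : LInftyPlus 𝕜 E lam := by
  intro F hF lam' hlam'
  obtain ⟨mu, hmu, hmu'⟩ := exists_between hlam'
  exact (h mu hmu).plus (h0.trans hmu.le) F hF lam' hmu'

/-- Local extension. -/
theorem ext_local {lam : ℝ} (hlam : 0 ≤ lam) (hE : LInftyPlus 𝕜 (Ultraprod 𝕜 U X) lam)
    (σ : Ultraprod 𝕜 U X →ₗ[𝕜] lp X ∞) (hσ : ∀ e, qm 𝕜 U X (σ e) = e)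
    {Z : Type u} [NormedAddCommGroup Z] [NormedSpace 𝕜 Z] (F0 : Submodule 𝕜 Z)
    [FiniteDimensional 𝕜 F0] (t : F0 →L[𝕜] Ultraprod 𝕜 U X) {τ C : ℝ} (hτ : ‖t‖ ≤ τ)
    (hC : lam * τ < C) :
    ∀ᶠ i in (U : Filter I), ∃ S : Z →L[𝕜] X i, ‖S‖ ≤ C ∧ ∀ y : F0, S y = σ (t y) i := by
  have hτ0 : 0 ≤ τ := t.opNorm_nonneg.trans hτ
  obtain ⟨lam', hl1, hl2⟩ : ∃ lam' > lam, lam' * τ ≤ C := by
    refine ⟨lam + (C - lam * τ) / (τ + 1), ?_, ?_⟩
    · have : 0 < (C - lam * τ) / (τ + 1) := div_pos (by linarith) (by linarith)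
      linarith
    · have h1 : (C - lam * τ) / (τ + 1) * τ ≤ C - lam * τ := by
        rw [div_mul_eq_mul_div, div_le_iff₀ (by linarith)]
        nlinarith
      nlinarith
  obtain ⟨G, hFG, n, w, hw⟩ := hE (LinearMap.range t.toLinearMap) inferInstance lam' hl1
  set α := ‖(w : G →L[𝕜] (Fin n → 𝕜))‖ with hα
  set β := ‖(w.symm : (Fin n → 𝕜) →L[𝕜] G)‖ with hβ
  have hα0 : 0 ≤ α := ContinuousLinearMap.opNorm_nonneg _
  have hβ0 : 0 ≤ β := ContinuousLinearMap.opNorm_nonneg _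
  -- the corestriction of `t`
  have hmem : ∀ y : F0, t y ∈ G := fun y => hFG ⟨y, rfl⟩
  let tG : F0 →L[𝕜] G := t.codRestrict G hmem
  have htG : ∀ y, ‖tG y‖ ≤ τ * ‖y‖ := fun y => (t.le_opNorm y).trans (by gcongr)
  -- the coordinate functionals and their extensions
  have hψ : ∀ j : Fin n, ∃ φ : StrongDual 𝕜 Z, (∀ y : F0, φ y = w (tG y) j) ∧ ‖φ‖ ≤ α * τ := by
    intro j
    let ψ : StrongDual 𝕜 F0 :=
      (ContinuousLinearMap.proj j : (Fin n → 𝕜) →L[𝕜] 𝕜).comp ((w : G →L[𝕜] (Fin n → 𝕜)).comp tG)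
    have hψn : ‖ψ‖ ≤ α * τ := by
      refine ContinuousLinearMap.opNorm_le_bound _ (by positivity) fun y => ?_
      calc ‖ψ y‖ = ‖w (tG y) j‖ := rfl
        _ ≤ ‖w (tG y)‖ := norm_le_pi_norm _ j
        _ ≤ α * ‖tG y‖ := (w : G →L[𝕜] (Fin n → 𝕜)).le_opNorm _
        _ ≤ α * (τ * ‖y‖) := by gcongr; exact htG y
        _ = _ := by ring
    obtain ⟨φ, hφ, hφn⟩ := exists_extension_norm_eq F0 ψ
    exact ⟨φ, fun y => hφ y, by rw [hφn]; exact hψn⟩
  choose φ hφ hφn using hψ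
  let g : Fin n → lp X ∞ := fun j => σ (w.symm (Pi.single j 1) : G)
  have hg : ∀ a : Fin n → 𝕜, ∑ j, a j • g j = σ (w.symm a : G) := by
    intro a
    have h1 : a = ∑ j, a j • (Pi.single j 1 : Fin n → 𝕜) := by
      ext i
      rw [Finset.sum_apply, Finset.sum_eq_single i]
      · simp
      · intro b _ hb
        simp [Pi.single_apply, hb.symm]
      · intro h
        exact absurd (Finset.mem_univ _) h
    conv_rhs => rw [h1]
    rw [map_sum, Submodule.coe_sum, map_sum]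
    refine Finset.sum_congr rfl fun j _ => ?_
    rw [map_smul, Submodule.coe_smul, map_smul]
  obtain ⟨δ, hδ0, hδ⟩ : ∃ δ > 0, (β + δ) * (α * τ) ≤ C ∨ α * τ = 0 := by
    by_cases hατ : α * τ = 0
    · exact ⟨1, one_pos, Or.inr hατ⟩
    · have hατ' : 0 < α * τ := lt_of_le_of_ne (by positivity) (Ne.symm hατ)
      have hτ' : 0 < τ := by
        rcases hτ0.lt_or_eq with h | h
        · exact h
        · rw [← h, mul_zero] at hατ'; exact absurd hατ' (lt_irrefl _)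
      have hlt : β * (α * τ) < C := by
        calc β * (α * τ) = (α * β) * τ := by ring
          _ < lam' * τ := by gcongr
          _ ≤ C := hl2
      refine ⟨(C - β * (α * τ)) / (α * τ), div_pos (by linarith) hατ', Or.inl ?_⟩
      rw [add_mul, div_mul_cancel₀ _ hατ]
      linarith
  have hev := eventually_bound (𝕜 := 𝕜) (U := U) g (c0 := β) (c := β + δ) (by linarith) (by
    intro a
    rw [hg, hσ]
    exact (w.symm : (Fin n → 𝕜) →L[𝕜] G).le_opNorm a)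
  filter_upwards [hev] with i hi
  refine ⟨∑ j, (φ j).smulRight (g j i), ?_, ?_⟩
  · have hCnn : 0 ≤ C := le_trans (by positivity) hC.le
    refine ContinuousLinearMap.opNorm_le_bound _ hCnn fun z => ?_
    rw [ContinuousLinearMap.sum_apply]
    simp only [ContinuousLinearMap.smulRight_apply]
    refine (hi fun j => φ j z).trans ?_
    have h1 : ‖fun j => φ j z‖ ≤ α * τ * ‖z‖ := by
      rw [pi_norm_le_iff_of_nonneg (by positivity)]
      intro j
      exact ((φ j).le_opNorm z).trans (by gcongr; exact hφn j)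
    calc (β + δ) * ‖fun j => φ j z‖ ≤ (β + δ) * (α * τ * ‖z‖) := by gcongr
      _ = ((β + δ) * (α * τ)) * ‖z‖ := by ring
      _ ≤ C * ‖z‖ := by
        rcases hδ with h | h
        · gcongr
        · rw [h, mul_zero, zero_mul]; positivity
  · intro y
    rw [ContinuousLinearMap.sum_apply]
    simp only [ContinuousLinearMap.smulRight_apply]
    have h1 : ∑ j, φ j (y : Z) • g j i = (∑ j, w (tG y) j • g j : lp X ∞) i := by
      rw [lp.coeFn_sum, Finset.sum_apply]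
      refine Finset.sum_congr rfl fun j _ => ?_
      rw [lp.coeFn_smul, Pi.smul_apply, hφ]
    rw [h1, hg, ContinuousLinearEquiv.symm_apply_apply]
    rfl

end Pool.Agent.X331.UI
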