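import Pool.Agent.X331.UI.Main

/-! Universal injectivity of `ℒ_∞`-ultraproducts over good ultrafilters. -/

set_option autoImplicit false

namespace Pool.Agent.X331.UI

open Filter Topology Cardinal
open scoped ENNReal

universe u v

variable {𝕜 : Type v} [RCLike 𝕜] {I : Type u} {U : Ultrafilter I} {X : I → Type u}
  [∀ i, NormedAddCommGroup (X i)] [∀ i, NormedSpace 𝕜 (X i)]

theorem exists_dense {Y : Type u} [TopologicalSpace Y] {κ : Cardinal.{u}} (h : dens Y < κ) :
    ∃ D : Set Y, Dense D ∧ #D < κ := by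
  have hne : {c : Cardinal.{u} | ∃ D : Set Y, Dense D ∧ #D = c}.Nonempty :=
    ⟨_, Set.univ, dense_univ, rfl⟩
  obtain ⟨D, hD, hc⟩ := csInf_mem hne
  refine ⟨D, hD, ?_⟩
  rw [hc]
  exact h

theorem dens_le {Y : Type u} [TopologicalSpace Y] {D : Set Y} (hD : Dense D) : dens Y ≤ #D :=
  csInf_le' ⟨D, hD, rfl⟩

theorem mem_g {S : Type u} {g : Finset S → Set I} {i : I}
    (hg : ∀ A B : Finset S, g (@Union.union _ (@Finset.instUnion S (Classical.decEq S)) A B) =
      g A ∩ g B) (B : Finset S) (hB : B.Nonempty) (h : ∀ d ∈ B, i ∈ g {d}) : i ∈ g B := by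
  classical
  induction hB using Finset.Nonempty.cons_induction with
  | singleton a => exact h a (by simp)
  | cons a s ha hs ih =>
    have h1 : Finset.cons a s ha = @Union.union _ (@Finset.instUnion S (Classical.decEq S)) {a} s := by
      ext x
      simp
    rw [h1, hg]
    exact ⟨h a (by simp), ih fun d hd => h d (by simp [hd])⟩

theorem main {κ : Cardinal.{u}} (hU : CountablyIncomplete U) (hG : Good κ U) {lam : ℝ}
    (hlam : 0 ≤ lam) (hE : LInftyPlus 𝕜 (Ultraprod 𝕜 U X) lam) :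
    UnivInjective 𝕜 (Ultraprod 𝕜 U X) lam κ := by
  classical
  intro Z _ _ _ Y _ hd t
  obtain ⟨D, hD, hDc⟩ := exists_dense hd
  have hlt : 0 ≤ lam * ‖t‖ := mul_nonneg hlam t.opNorm_nonneg
  rcases D.finite_or_infinite with hfin | hinf
  · -- `Y` is trivial
    have hDu : D = Set.univ := by
      rw [← hD.closure_eq, hfin.isClosed.closure_eq]
    have hY0 : ∀ y : Y, y = 0 := by
      intro y
      by_contra hy
      have h1 : (Set.univ : Set Y).Finite := hDu ▸ hfin
      have h2 : Function.Injective fun n : ℕ => (n : 𝕜) • y := by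
        intro a b hab
        have h3 : ((a : 𝕜) - b) • y = 0 := by
          rw [sub_smul]
          exact sub_eq_zero.2 hab
        rcases smul_eq_zero.1 h3 with h4 | h4
        · exact_mod_cast sub_eq_zero.1 h4
        · exact absurd h4 hy
      exact Set.infinite_univ_iff.2 (Infinite.of_injective _ h2) h1
    refine ⟨0, fun y => ?_, ?_⟩
    · rw [hY0 y]; simp
    · rw [ContinuousLinearMap.opNorm_zero]; exact hlt
  obtain ⟨σ, hσ⟩ := exists_lift (𝕜 := 𝕜) (U := U) (X := X)
  obtain ⟨Sn, hSn, hSa, hSe⟩ := hU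
  -- the local extension property
  let P : Finset D → I → Prop := fun A i => ∃ S : Z →L[𝕜] X i,
    ‖S‖ ≤ lam * ‖t‖ + 1 / ((A.card : ℝ) + 1) ∧ ∀ d ∈ A, S ((d : Y) : Z) = σ (t d) i
  have hP : ∀ A : Finset D, ∀ᶠ i in (U : Filter I), P A i := by
    intro A
    let F0 : Submodule 𝕜 Z := Submodule.span 𝕜 ((fun d : D => ((d : Y) : Z)) '' A)
    have hF0 : F0 ≤ Y := by
      refine Submodule.span_le.2 ?_
      rintro _ ⟨d, _, rfl⟩
      exact (d : Y).2
    haveI : FiniteDimensional 𝕜 F0 :=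
      FiniteDimensional.span_of_finite 𝕜 (A.finite_toSet.image _)
    let tA : F0 →L[𝕜] Ultraprod 𝕜 U X := t.comp (F0.subtypeL.codRestrict Y fun y => hF0 y.2)
    have htA : ‖tA‖ ≤ ‖t‖ := by
      refine ContinuousLinearMap.opNorm_le_bound _ t.opNorm_nonneg fun y => ?_
      exact t.le_opNorm _
    have h1 := ext_local hlam hE σ hσ F0 tA htA
      (C := lam * ‖t‖ + 1 / ((A.card : ℝ) + 1)) (by
        have : (0 : ℝ) < 1 / ((A.card : ℝ) + 1) := by positivity
        linarith)
    filter_upwards [h1] with i hi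
    obtain ⟨S, hS1, hS2⟩ := hi
    refine ⟨S, hS1, fun d hd => ?_⟩
    exact hS2 ⟨((d : Y) : Z), Submodule.subset_span ⟨d, hd, rfl⟩⟩
  let f : Finset D → Set I := fun A => Sn A.card ∩ {i | P A i}
  have hfU : ∀ A, f A ∈ U := fun A => Filter.inter_mem (hSn _) (hP A)
  have hfm : ∀ A B, A ⊆ B → f B ⊆ f A := by
    rintro A B hAB i ⟨h1, S, h2, h3⟩
    have hc : A.card ≤ B.card := Finset.card_le_card hAB
    refine ⟨hSa hc h1, S, h2.trans ?_, fun d hd => h3 d (hAB hd)⟩
    have : (1 : ℝ) / ((B.card : ℝ) + 1) ≤ 1 / ((A.card : ℝ) + 1) := by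
      apply one_div_le_one_div_of_le (by positivity)
      have : (A.card : ℝ) ≤ B.card := by exact_mod_cast hc
      linarith
    linarith
  obtain ⟨g, hgU, hgi, hgf⟩ := hG D hDc f hfU hfm
  have hgi' : ∀ A B : Finset D,
      g (@Union.union _ (@Finset.instUnion D (Classical.decEq D)) A B) = g A ∩ g B := by
    intro A B
    convert hgi A B
  -- the finite sets
  have hAfin : ∀ i, {d : D | i ∈ g {d}}.Finite := by
    intro i
    by_contra hinf'
    have h1 : ∀ n, i ∈ Sn n := by
      have h2 : ∀ n, i ∈ Sn (n + 1) := by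
        intro n
        obtain ⟨B, hB1, hB2⟩ := Set.Infinite.exists_subset_card_eq hinf' (n + 1)
        have hBne : B.Nonempty := by
          rw [← Finset.card_pos, hB2]; omega
        have h3 := hgf B (mem_g hgi' B hBne fun d hd => hB1 hd)
        have h4 := h3.1
        rwa [hB2] at h4
      intro n
      exact hSa (Nat.le_succ n) (h2 n)
    have h5 : i ∈ ⋂ n, Sn n := Set.mem_iInter.2 h1
    rw [hSe] at h5
    exact h5
  let B : I → Finset D := fun i => (hAfin i).toFinset
  have hBm : ∀ i (d : D), d ∈ B i ↔ i ∈ g {d} := fun i d => by simp [B]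
  have hPB : ∀ i, P (B i) i := by
    intro i
    rcases (B i).eq_empty_or_nonempty with h | h
    · refine ⟨0, ?_, ?_⟩
      · rw [ContinuousLinearMap.opNorm_zero]
        positivity
      · intro d hd
        rw [h] at hd
        exact absurd hd (Finset.notMem_empty _)
    · exact (hgf (B i) (mem_g hgi' (B i) h fun d hd => (hBm i d).1 hd)).2
  choose S hS1 hS2 using hPB
  have hSb : ∀ i (z : Z), ‖S i z‖ ≤ (lam * ‖t‖ + 1 / (((B i).card : ℝ) + 1)) * ‖z‖ := fun i z =>
    ((S i).le_opNorm z).trans (by gcongr; exact hS1 i)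
  have hSb1 : ∀ i (z : Z), ‖S i z‖ ≤ (lam * ‖t‖ + 1) * ‖z‖ := by
    intro i z
    refine (hSb i z).trans ?_
    gcongr
    rw [div_le_one (by positivity)]
    have : (0 : ℝ) ≤ (B i).card := by positivity
    linarith
  let T0 : Z →ₗ[𝕜] lp X ∞ :=
    { toFun := fun z => ⟨fun i => S i z, memℓp_infty ⟨(lam * ‖t‖ + 1) * ‖z‖, by
        rintro _ ⟨i, rfl⟩; exact hSb1 i z⟩⟩
      map_add' := by
        intro x y
        ext i
        show S i (x + y) = S i x + S i y
        exact map_add _ _ _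
      map_smul' := by
        intro c x
        ext i
        show S i (c • x) = c • S i x
        exact map_smul _ _ _ }
  have hT0 : ∀ z i, T0 z i = S i z := fun _ _ => rfl
  -- many elements
  have hcard : ∀ n : ℕ, ∀ᶠ i in (U : Filter I), n ≤ (B i).card := by
    intro n
    obtain ⟨A, hA1, hA2⟩ := (Set.infinite_univ_iff.2 hinf.to_subtype).exists_subset_card_eq n
    have h1 : ∀ᶠ i in (U : Filter I), ∀ d ∈ A, i ∈ g {d} := by
      rw [Filter.eventually_all_finset]
      intro d _
      exact hgU {d}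
    filter_upwards [h1] with i hi
    rw [← hA2]
    exact Finset.card_le_card fun d hd => (hBm i d).2 (hi d hd)
  have hTn : ∀ z, ‖qm 𝕜 U X (T0 z)‖ ≤ lam * ‖t‖ * ‖z‖ := by
    intro z
    have h1 : ∀ n : ℕ, ‖qm 𝕜 U X (T0 z)‖ ≤ (lam * ‖t‖ + 1 / ((n : ℝ) + 1)) * ‖z‖ := by
      intro n
      refine le_of_tendsto (tendsto_norm (𝕜 := 𝕜) (U := U) (T0 z)) ?_
      filter_upwards [hcard n] with i hi
      rw [hT0]
      refine (hSb i z).trans ?_
      have : (1 : ℝ) / (((B i).card : ℝ) + 1) ≤ 1 / ((n : ℝ) + 1) := by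
        apply one_div_le_one_div_of_le (by positivity)
        have : (n : ℝ) ≤ (B i).card := by exact_mod_cast hi
        linarith
      gcongr
    have h2 : Tendsto (fun n : ℕ => (lam * ‖t‖ + 1 / ((n : ℝ) + 1)) * ‖z‖) atTop
        (𝓝 ((lam * ‖t‖ + 0) * ‖z‖)) :=
      (tendsto_const_nhds.add tendsto_one_div_add_atTop_nhds_zero_nat).mul_const _
    rw [add_zero] at h2
    exact ge_of_tendsto' h2 h1
  refine ⟨((qm 𝕜 U X).toLinearMap.comp T0).mkContinuous (lam * ‖t‖) hTn, ?_,
    LinearMap.mkContinuous_norm_le _ hlt _⟩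
  have hcont1 : Continuous fun y : Y =>
      ((qm 𝕜 U X).toLinearMap.comp T0).mkContinuous (lam * ‖t‖) hTn (y : Z) :=
    (ContinuousLinearMap.continuous _).comp continuous_subtype_val
  have heq := Continuous.ext_on hD hcont1 t.continuous (by
    intro y hy
    show qm 𝕜 U X (T0 (y : Z)) = t y
    rw [← hσ (t y)]
    refine qm_congr ?_
    have h1 : ∀ᶠ i in (U : Filter I), i ∈ g {(⟨y, hy⟩ : D)} := hgU _
    filter_upwards [h1] with i hi
    exact hS2 i ⟨y, hy⟩ ((hBm i _).2 hi))
  exact fun y => congrFun heq y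

end Pool.Agent.X331.UI
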